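import Pool.Agent.H47.SQ.Targets3
import Pool.Agent.H51.SSM.CHO

/-!
# Row XNB of ppz_modules (helper32): the first part of pT is small
-/

set_option autoImplicit false

namespace Pool.Agent.H32.SR

open Finset Pool.Agent.H97.RK Pool.Agent.H41.SS Pool.Agent.H47.SR
open Pool.Agent.H47.SQ (sav)

theorem bl_exp (n a : ℕ) {y : ℝ} (hy : 1 ≤ y) : (bl n a : ℝ) ≤ y ^ a * Real.exp (n / y) := by
  have hy0 : 0 < y := by linarith
  obtain ⟨f, hf⟩ : ∃ f : ℕ → ℝ, f = fun i => (y⁻¹) ^ i * (n.choose i : ℝ) := ⟨_, rfl⟩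
  have hf0 : ∀ i, 0 ≤ f i := by
    intro i; rw [hf]; positivity
  have h1 : (bl n a : ℝ) ≤ ∑ i ∈ range (a + 1), y ^ a * f i := by
    unfold bl
    push_cast
    refine sum_le_sum fun i hi => ?_
    rw [mem_range] at hi
    obtain ⟨j, hj⟩ : ∃ j, a = i + j := ⟨a - i, by omega⟩
    rw [hf, hj]
    simp only
    have e1 : y ^ (i + j) * ((y⁻¹) ^ i * (n.choose i : ℝ)) = y ^ j * (n.choose i : ℝ) := by
      rw [pow_add, inv_pow]
      have : y ^ i ≠ 0 := (pow_pos hy0 i).ne'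
      field_simp
    rw [e1]
    have e2 : 1 ≤ y ^ j := one_le_pow₀ hy
    nlinarith [(Nat.cast_nonneg (n.choose i) : (0 : ℝ) ≤ _)]
  have h2 : ∑ i ∈ range (a + 1), f i ≤ (1 + y⁻¹) ^ n := by
    calc ∑ i ∈ range (a + 1), f i ≤ ∑ i ∈ range (a + 1) ∪ range (n + 1), f i :=
          sum_le_sum_of_subset_of_nonneg subset_union_left fun i _ _ => hf0 i
      _ = ∑ i ∈ range (n + 1), f i := by
          refine (sum_subset subset_union_right fun i _ hi => ?_).symm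
          rw [mem_range, not_lt] at hi
          rw [hf]
          simp only
          rw [Nat.choose_eq_zero_of_lt (by omega)]
          simp
      _ = (1 + y⁻¹) ^ n := by
          rw [add_comm (1 : ℝ) (y⁻¹), add_pow, hf]
          simp
  rw [← mul_sum] at h1
  refine h1.trans (mul_le_mul_of_nonneg_left (h2.trans ?_) (by positivity))
  calc (1 + y⁻¹) ^ n ≤ (Real.exp (y⁻¹)) ^ n := by
        refine pow_le_pow_left₀ (by positivity) ?_ n
        have := Real.add_one_le_exp (y⁻¹)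
        linarith
    _ = Real.exp (n / y) := by
        rw [← Real.exp_nat_mul]; rfl

/-- the same with logarithms -/
theorem bl_exp' (n a : ℕ) {y B : ℝ} (hy : 1 ≤ y) (hB : a * Real.log y + n / y ≤ B) :
    (bl n a : ℝ) ≤ Real.exp B := by
  refine (bl_exp n a hy).trans ?_
  have hy0 : 0 < y := by linarith
  have h1 : y ^ a = Real.exp (a * Real.log y) := by
    rw [Real.exp_nat_mul, Real.exp_log hy0]
  rw [h1, ← Real.exp_add]
  exact Real.exp_le_exp.2 hB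

/-- the parameters -/
theorem ctx {n k m : ℕ} (hk : 1 ≤ k) (hn : 1 ≤ n) : ∃ L Δ : ℝ, sav n k m * n = L * (n / k) ∧
    Real.exp L = k * (1 + Δ) ∧ (m : ℝ) = Δ * (2 ^ k * n) ∧ 0 ≤ Δ ∧ Real.log k ≤ L ∧
    L = Real.log (k * (1 + Δ)) ∧ Δ = (m : ℝ) / (2 ^ k * n) := by
  have hk1 : (1 : ℝ) ≤ k := by exact_mod_cast hk
  have hn1 : (1 : ℝ) ≤ n := by exact_mod_cast hn
  have hk0 : (0 : ℝ) < k := by linarith
  have hn0 : (0 : ℝ) < n := by linarith
  obtain ⟨Δ, hΔ⟩ : ∃ Δ : ℝ, Δ = (m : ℝ) / (2 ^ k * n) := ⟨_, rfl⟩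
  have hΔ0 : 0 ≤ Δ := by rw [hΔ]; positivity
  have hkΔ : (k : ℝ) ≤ k * (1 + Δ) := by nlinarith
  refine ⟨Real.log (k * (1 + Δ)), Δ, ?_, ?_, ?_, hΔ0, ?_, rfl, hΔ⟩
  · unfold sav
    rw [← hΔ]
    field_simp
  · rw [Real.exp_log (by linarith)]
  · rw [hΔ]; field_simp
  · exact Real.log_le_log hk0 hkΔ

/-- binomial coefficients -/
theorem ch_exp {m k t : ℕ} {B : ℝ} (ht : 1 ≤ t)
    (h : Real.exp 1 * ((2 * m : ℕ) : ℝ) / t ≤ 2 ^ k * Real.exp B) :
    ((2 * m).choose t : ℝ) ≤ 2 ^ (k * t) * Real.exp (t * B) := by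
  refine (Pool.Agent.H51.SSM.pf_CHO.1 (2 * m) t ht).trans ?_
  calc (Real.exp 1 * ((2 * m : ℕ) : ℝ) / t) ^ t ≤ (2 ^ k * Real.exp B) ^ t :=
        pow_le_pow_left₀ (by positivity) h t
    _ = 2 ^ (k * t) * Real.exp (t * B) := by
        rw [mul_pow, ← pow_mul, ← Real.exp_nat_mul]

/-- the last factor -/
theorem pw_exp {n k t : ℕ} {d a : ℝ} (hn : (0 : ℝ) < n) (h0 : 0 ≤ (n : ℝ) - d + a) :
    (((n : ℝ) - d + a) / (2 * n)) ^ (k * t) * 2 ^ (k * t) ≤
      Real.exp (-(t * ((d - a) * (k / n)))) := by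
  rw [← mul_pow]
  have e1 : ((n : ℝ) - d + a) / (2 * n) * 2 = 1 - (d - a) / n := by
    field_simp
    ring
  have e0 : 0 ≤ ((n : ℝ) - d + a) / (2 * n) * 2 := by positivity
  rw [e1] at e0
  rw [e1]
  have e3 : 1 - (d - a) / n ≤ Real.exp (-((d - a) / n)) := by
    have := Real.add_one_le_exp (-((d - a) / n))
    linarith
  refine (pow_le_pow_left₀ e0 e3 _).trans (le_of_eq ?_)
  rw [← Real.exp_nat_mul]
  congr 1
  push_cast
  ring

theorem two_pow_exp {u : ℕ} {B : ℝ} (h : (u : ℝ) * (7 / 10) ≤ B) : (2 : ℝ) ^ u ≤ Real.exp B := by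
  have h1 : (2 : ℝ) ^ u = Real.exp (u * Real.log 2) := by
    rw [Real.exp_nat_mul, Real.exp_log (by norm_num)]
  rw [h1]
  apply Real.exp_le_exp.2
  have := Real.log_two_lt_d9
  have h2 : (0 : ℝ) ≤ u := Nat.cast_nonneg _
  nlinarith

theorem log_le_sqrt' {L : ℝ} (hL : 0 < L) : Real.log L ≤ 2 * Real.sqrt L := by
  have h1 : Real.log L = 2 * Real.log (Real.sqrt L) := by
    rw [Real.log_sqrt hL.le]; ring
  rw [h1]
  have := Real.log_le_sub_one_of_pos (Real.sqrt_pos.2 hL)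
  linarith

theorem pf_XNB : T_XNB := by
  intro ε G C₁ hε hε1 hG
  obtain ⟨L0, hL0⟩ : ∃ L0 : ℝ, L0 = (104 * (G : ℝ)) ^ 2 + 4 * C₁ + 16 * (12 * G + 12) / ε + 30 :=
    ⟨_, rfl⟩
  obtain ⟨K, hK⟩ : ∃ K : ℕ, K = ⌈Real.exp L0⌉₊ + 300 := ⟨_, rfl⟩
  refine ⟨1, K, one_pos, ?_⟩
  intro k n m t t₁ d u u₁ hk hn _ ht1 ht2 ht₁ hd1 hd2 hu hu₁ hu₁n
  have hG00 : (0 : ℝ) ≤ G := Nat.cast_nonneg G
  have hG46 : (2 : ℝ) ^ 46 ≤ G := hG.trans (mul_le_of_le_one_left hG00 hε1)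
  have hG7 : (7 : ℝ) ≤ G := le_trans (by norm_num) hG46
  have hG0 : (0 : ℝ) < G := by linarith
  have hG1 : (1 : ℝ) ≤ G := by linarith
  have hK300 : 300 ≤ K := by omega
  have hKe : Real.exp L0 ≤ K := by
    rw [hK]; push_cast
    have := Nat.le_ceil (Real.exp L0)
    linarith
  have hk1 : 1 ≤ k := by omega
  have hn1 : 1 ≤ n := by nlinarith
  have hkr : (K : ℝ) ≤ k := by exact_mod_cast hk
  have hk0 : (0 : ℝ) < k := by exact_mod_cast (by omega : 0 < k)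
  have hn0 : (0 : ℝ) < n := by exact_mod_cast (by omega : 0 < n)
  have hnr : (K : ℝ) * k ≤ n := by exact_mod_cast hn
  obtain ⟨L, Δ, hlam, hexp, hm, hΔ0, hLk, -, -⟩ := ctx (m := m) hk1 hn1
  obtain ⟨x, hx⟩ : ∃ x : ℝ, x = (n : ℝ) / k := ⟨_, rfl⟩
  have hxk : (n : ℝ) = x * k := by rw [hx]; field_simp
  have hxK : (K : ℝ) ≤ x := by
    rw [hx, le_div_iff₀ hk0]; exact hnr
  have hx300 : (300 : ℝ) ≤ x := le_trans (by exact_mod_cast hK300) hxK
  have hx0 : 0 < x := by linarith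
  rw [← hx] at ht1 ht2 ht₁ hlam
  rw [hlam] at hu hu₁
  have hlam' : (1 + ε) * sav n k m * n = (1 + ε) * (L * x) := by rw [← hlam]; ring
  rw [hlam'] at hd1
  have hL0L : L0 ≤ L := by
    refine le_trans ?_ hLk
    rw [Real.le_log_iff_exp_le hk0]
    exact hKe.trans hkr
  have hp1 : 0 ≤ 16 * (12 * (G : ℝ) + 12) / ε := by positivity
  have hp2 : (0 : ℝ) ≤ (104 * (G : ℝ)) ^ 2 := by positivity
  have hp3 : (0 : ℝ) ≤ C₁ := Nat.cast_nonneg _
  rw [hL0] at hL0L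
  have hL30 : 30 ≤ L := by linarith
  have hLC : 4 * (C₁ : ℝ) ≤ L := by linarith
  have hLG : 16 * (12 * (G : ℝ) + 12) ≤ ε * L := by
    have h1 : 16 * (12 * (G : ℝ) + 12) / ε ≤ L := by linarith
    rw [div_le_iff₀ hε] at h1
    linarith
  have hLs : 104 * (G : ℝ) ≤ Real.sqrt L := by
    apply Real.le_sqrt_of_sq_le
    linarith
  clear hL0L hp1 hp2 hL0 hK hKe hn hk hnr
  have hLpos : 0 < L := by linarith
  have hlogL : 52 * (G : ℝ) * Real.log L ≤ L := by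
    have h1 := log_le_sqrt' hLpos
    have h2 : Real.sqrt L * Real.sqrt L = L := Real.mul_self_sqrt hLpos.le
    have h3 : 0 < Real.sqrt L := Real.sqrt_pos.2 hLpos
    calc 52 * (G : ℝ) * Real.log L ≤ 52 * G * (2 * Real.sqrt L) :=
          mul_le_mul_of_nonneg_left h1 (by positivity)
      _ = (104 * G) * Real.sqrt L := by ring
      _ ≤ Real.sqrt L * Real.sqrt L := mul_le_mul_of_nonneg_right hLs h3.le
      _ = L := h2
  have hlogL0 : 0 ≤ Real.log L := Real.log_nonneg (by linarith)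
  obtain ⟨lam, hlamdef⟩ : ∃ lam : ℝ, lam = L * x := ⟨_, rfl⟩
  rw [← hlamdef] at hu hu₁ hd1 hlam
  have hlam0 : 0 < lam := by rw [hlamdef]; positivity
  have hxlam : 30 * x ≤ lam := by
    rw [hlamdef]; exact mul_le_mul_of_nonneg_right hL30 hx0.le
  have hLlam : 300 * L ≤ lam := by
    rw [hlamdef]
    have := mul_le_mul_of_nonneg_left hx300 hLpos.le
    linarith
  have hGx12 : 12 ≤ (G : ℝ) * x :=
    le_trans (by linarith) (le_mul_of_one_le_left hx0.le hG1)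
  have ht0 : (0 : ℝ) < t := by linarith
  have ht : 1 ≤ t := by exact_mod_cast ht0
  -- factors
  have A1 : (2 : ℝ) ^ u ≤ Real.exp (21 / 10 * lam) := two_pow_exp (by linarith)
  have hk1r : (1 : ℝ) ≤ k := by exact_mod_cast hk1
  have hlk0 : 0 ≤ Real.log k := Real.log_nonneg hk1r
  have A2g : ∀ a : ℕ, (a : ℝ) ≤ 2 * x + 3 → (bl n a : ℝ) ≤ Real.exp (22 / 10 * lam) := by
    intro a ha
    apply bl_exp' n a hk1r
    rw [← hx]
    have h1 : (a : ℝ) * Real.log k ≤ (2 * x + 3) * L :=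
      mul_le_mul ha hLk hlk0 (by linarith)
    have h2 : (2 * x + 3) * L = 2 * lam + 3 * L := by rw [hlamdef]; ring
    linarith
  have A2 : (bl n (2 * t₁ + 1) : ℝ) ≤ Real.exp (22 / 10 * lam) := by
    apply A2g; push_cast; linarith
  have A2' : (bl n (2 * t₁) : ℝ) ≤ Real.exp (22 / 10 * lam) := by
    apply A2g; push_cast; linarith
  have A3g : ∀ a : ℕ, (a : ℝ) ≤ 13 * (G * x) → (bl u₁ a : ℝ) ≤ Real.exp (1 / 2 * lam) := by
    intro a ha
    apply bl_exp' u₁ a (by linarith : (1 : ℝ) ≤ L)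
    have h1 : (a : ℝ) * Real.log L ≤ 13 * (G * x) * Real.log L :=
      mul_le_mul_of_nonneg_right ha hlogL0
    have h2 : 13 * ((G : ℝ) * x) * Real.log L ≤ 1 / 4 * lam := by
      rw [hlamdef]
      have := mul_le_mul_of_nonneg_right hlogL hx0.le
      linarith
    have h3 : (u₁ : ℝ) / L ≤ C₁ * x := by
      rw [div_le_iff₀ hLpos]
      have : (C₁ : ℝ) * lam = C₁ * x * L := by rw [hlamdef]; ring
      linarith
    have h4 : (C₁ : ℝ) * x ≤ 1 / 4 * lam := by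
      rw [hlamdef]
      have := mul_le_mul_of_nonneg_right hLC hx0.le
      linarith
    linarith
  have A3 : (bl u₁ (4 * t + 1) : ℝ) ≤ Real.exp (1 / 2 * lam) := by
    apply A3g; push_cast; linarith
  have A3' : (bl u₁ (12 * t) : ℝ) ≤ Real.exp (1 / 2 * lam) := by
    apply A3g; push_cast; linarith
  have A4 : ((2 * m).choose t : ℝ) ≤ 2 ^ (k * t) * Real.exp (t * L) := by
    apply ch_exp ht
    have h1 : ((2 * m : ℕ) : ℝ) = 2 * (Δ * (2 ^ k * n)) := by
      push_cast; rw [hm]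
    have h2 : (n : ℝ) / t ≤ k / G := by
      rw [div_le_div_iff₀ ht0 hG0, hxk]
      have := mul_le_mul_of_nonneg_left ht2 hk0.le
      linarith
    have h3 : Real.exp 1 * (2 * (Δ * (2 ^ k * (n : ℝ)))) / t =
        2 ^ k * (2 * Real.exp 1 * (Δ * ((n : ℝ) / t))) := by ring
    rw [h1, h3]
    apply mul_le_mul_of_nonneg_left _ (by positivity)
    have h4 : Δ * ((n : ℝ) / t) ≤ Δ * (k / G) := mul_le_mul_of_nonneg_left h2 hΔ0
    have h5 : 2 * Real.exp 1 * (Δ * (k / G)) ≤ Real.exp L := by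
      rw [hexp]
      have h6 : 2 * Real.exp 1 * (Δ * (k / G)) = (2 * Real.exp 1 / G) * (Δ * k) := by
        field_simp
      have h7 : 2 * Real.exp 1 / G ≤ 1 := by
        rw [div_le_one hG0]
        have := Real.exp_one_lt_d9
        linarith
      rw [h6]
      have h8 : 0 ≤ Δ * k := mul_nonneg hΔ0 hk0.le
      have h9 := mul_le_mul_of_nonneg_right h7 h8
      linarith
    refine le_trans (mul_le_mul_of_nonneg_left h4 (by positivity)) h5
  have hnd : 0 ≤ (n : ℝ) - d + 12 * t := by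
    have : (d : ℝ) ≤ n := by exact_mod_cast hd2
    linarith
  have A5 := pw_exp (k := k) (t := t) hn0 hnd
  have A5' : Real.exp (-((t : ℝ) * (((d : ℝ) - 12 * t) * (k / n)))) ≤
      Real.exp (-(t * ((1 + 15 / 16 * ε) * L))) := by
    apply Real.exp_le_exp.2
    apply neg_le_neg
    apply mul_le_mul_of_nonneg_left _ ht0.le
    have h1 : (k : ℝ) / n = 1 / x := by rw [hxk]; field_simp
    rw [h1, mul_one_div, le_div_iff₀ hx0]
    have h2 : (12 : ℝ) * t ≤ (12 * G + 12) * x := by linarith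
    have h3 : (12 * (G : ℝ) + 12) * x ≤ 1 / 16 * (ε * L) * x := by
      apply mul_le_mul_of_nonneg_right _ hx0.le
      linarith
    have h4 : (1 + ε) * lam = (1 + ε) * L * x := by rw [hlamdef]; ring
    linarith
  have A5p : 0 ≤ (((n : ℝ) - d + 12 * t) / (2 * n)) ^ (k * t) := by positivity
  unfold prB
  generalize hP : (((n : ℝ) - d + 12 * t) / (2 * n)) ^ (k * t) = P at A5 A5p ⊢
  have A45 : ((2 * m).choose t : ℝ) * P ≤ Real.exp (t * L) *
      Real.exp (-(t * ((1 + 15 / 16 * ε) * L))) := by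
    calc ((2 * m).choose t : ℝ) * P ≤ 2 ^ (k * t) * Real.exp (t * L) * P :=
          mul_le_mul_of_nonneg_right A4 A5p
      _ = Real.exp (t * L) * (P * 2 ^ (k * t)) := by ring
      _ ≤ _ := mul_le_mul_of_nonneg_left (A5.trans A5') (Real.exp_pos _).le
  have A6 : Real.exp (t * L) * Real.exp (-(t * ((1 + 15 / 16 * ε) * L))) ≤
      Real.exp (-(15 / 16 * 2 ^ 46 * lam)) := by
    rw [← Real.exp_add]
    apply Real.exp_le_exp.2
    have h1 : (t : ℝ) * L + -(t * ((1 + 15 / 16 * ε) * L)) = -(15 / 16 * (ε * t * L)) := by ring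
    rw [h1]
    apply neg_le_neg
    have h2 : 2 ^ 46 * x ≤ ε * t := by
      have h3 : ε * (G * x) ≤ ε * t := mul_le_mul_of_nonneg_left ht2 hε.le
      have h4 : 2 ^ 46 * x ≤ ε * G * x := mul_le_mul_of_nonneg_right hG hx0.le
      linarith
    have h5 : 2 ^ 46 * x * L ≤ ε * t * L := mul_le_mul_of_nonneg_right h2 hLpos.le
    rw [hlamdef]
    linarith
  have e1 : (2 : ℝ) ^ u * bl u₁ (4 * t + 1) * bl n (2 * t₁ + 1) *
      (2 ^ u * bl n (2 * t₁) * bl u₁ (12 * t) * ((2 * m).choose t : ℝ) * P) =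
      ((2 : ℝ) ^ u * bl u₁ (4 * t + 1)) * (bl n (2 * t₁ + 1) * 2 ^ u) *
      ((bl n (2 * t₁) * bl u₁ (12 * t)) * (((2 * m).choose t : ℝ) * P)) := by ring
  rw [e1]
  have B1 : (2 : ℝ) ^ u * bl u₁ (4 * t + 1) ≤ Real.exp (21 / 10 * lam) * Real.exp (1 / 2 * lam) :=
    mul_le_mul A1 A3 (Nat.cast_nonneg _) (Real.exp_pos _).le
  have B2 : (bl n (2 * t₁ + 1) : ℝ) * 2 ^ u ≤ Real.exp (22 / 10 * lam) *
      Real.exp (21 / 10 * lam) :=
    mul_le_mul A2 A1 (by positivity) (Real.exp_pos _).le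
  have B3 : (bl n (2 * t₁) : ℝ) * bl u₁ (12 * t) ≤ Real.exp (22 / 10 * lam) *
      Real.exp (1 / 2 * lam) :=
    mul_le_mul A2' A3' (Nat.cast_nonneg _) (Real.exp_pos _).le
  have B4 := A45.trans A6
  have C12 := mul_le_mul B1 B2 (by positivity) (by positivity)
  have C34 := mul_le_mul B3 B4 (mul_nonneg (Nat.cast_nonneg _) A5p) (by positivity)
  have C := mul_le_mul C12 C34 (mul_nonneg (by positivity)
    (mul_nonneg (Nat.cast_nonneg _) A5p)) (by positivity)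
  refine C.trans ?_
  have e2 : (2 : ℝ) ^ (-(2 ^ 45 * sav n k m * n)) = Real.exp (-(2 ^ 45 * lam) * Real.log 2) := by
    rw [Real.rpow_def_of_pos (by norm_num), mul_assoc (2 ^ 45), hlam, mul_comm]
  rw [e2]
  simp only [← Real.exp_add]
  apply Real.exp_le_exp.2
  have hl2 : Real.log 2 < 0.6931471808 := Real.log_two_lt_d9
  have h9 : 2 ^ 45 * lam * Real.log 2 ≤ 2 ^ 45 * lam * 0.6931471808 :=
    mul_le_mul_of_nonneg_left hl2.le (by positivity)
  linarith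

end Pool.Agent.H32.SR
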