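import Pool.Agent.H32.SR.XNB

/-!
# Row XNE of ppz_modules (helper32): the second part of pT is small
-/

set_option autoImplicit false

namespace Pool.Agent.H32.SR

open Finset Pool.Agent.H97.RK Pool.Agent.H41.SS Pool.Agent.H47.SR
open Pool.Agent.H47.SQ (sav)

theorem pf_XNE : T_XNE := by
  intro G C₁ hC
  obtain ⟨L0, hL0⟩ : ∃ L0 : ℝ, L0 = 28 * (G : ℝ) + 30 := ⟨_, rfl⟩
  obtain ⟨K, hK⟩ : ∃ K : ℕ, K = ⌈Real.exp L0⌉₊ + 300 := ⟨_, rfl⟩
  refine ⟨1, K, one_pos, ?_⟩
  intro k n m t t₁ u₁ hk hn _ ht ht1 ht₁ hu₁ hu₁n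
  have hG00 : (0 : ℝ) ≤ G := Nat.cast_nonneg G
  have hK300 : 300 ≤ K := by omega
  have hKe : Real.exp L0 ≤ K := by
    rw [hK]; push_cast
    have := Nat.le_ceil (Real.exp L0)
    linarith
  have hk1 : 1 ≤ k := by omega
  have hn1 : 1 ≤ n := by nlinarith
  have hkr : (K : ℝ) ≤ k := by exact_mod_cast hk
  have hk0 : (0 : ℝ) < k := by exact_mod_cast (by omega : 0 < k)
  have hn0 : (0 : ℝ) < n := by exact_mod_cast (by omega : 0 < n)
  have hnr : (K : ℝ) * k ≤ n := by exact_mod_cast hn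
  obtain ⟨L, Δ, hlam, hexp, hm, hΔ0, hLk, -, -⟩ := ctx (m := m) hk1 hn1
  obtain ⟨x, hx⟩ : ∃ x : ℝ, x = (n : ℝ) / k := ⟨_, rfl⟩
  have hxk : (n : ℝ) = x * k := by rw [hx]; field_simp
  have hxK : (K : ℝ) ≤ x := by
    rw [hx, le_div_iff₀ hk0]; exact hnr
  have hx300 : (300 : ℝ) ≤ x := le_trans (by exact_mod_cast hK300) hxK
  have hx0 : 0 < x := by linarith
  rw [← hx] at ht1 ht₁ hlam
  rw [hlam] at hu₁
  have hL0L : L0 ≤ L := by
    refine le_trans ?_ hLk
    rw [Real.le_log_iff_exp_le hk0]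
    exact hKe.trans hkr
  rw [hL0] at hL0L
  have hL30 : 30 ≤ L := by linarith
  have hLG : 24 * (G : ℝ) + 4 ≤ L := by linarith
  clear hL0 hK hKe hn hk hnr
  have hLpos : 0 < L := by linarith
  have hCr : (2 : ℝ) ^ 46 ≤ C₁ := by exact_mod_cast hC
  obtain ⟨lam, hlamdef⟩ : ∃ lam : ℝ, lam = L * x := ⟨_, rfl⟩
  rw [← hlamdef] at hu₁ hlam
  have hlam0 : 0 < lam := by rw [hlamdef]; positivity
  have hxlam : 30 * x ≤ lam := by
    rw [hlamdef]; exact mul_le_mul_of_nonneg_right hL30 hx0.le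
  have hLlam : 300 * L ≤ lam := by
    rw [hlamdef]
    have := mul_le_mul_of_nonneg_left hx300 hLpos.le
    linarith
  have hk1r : (1 : ℝ) ≤ k := by exact_mod_cast hk1
  have hlk0 : 0 ≤ Real.log k := Real.log_nonneg hk1r
  have hkL : (k : ℝ) ≤ Real.exp L := by
    rw [← Real.exp_log hk0]; exact Real.exp_le_exp.2 hLk
  -- one term
  have hterm : ∀ s ∈ Icc t₁ (6 * t), (bl n (2 * s) : ℝ) * (2 * m).choose s *
      (((n : ℝ) - u₁ + 4 * s) / (2 * n)) ^ (k * s) ≤ Real.exp (-(((C₁ : ℝ) - 4) * lam)) := by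
    intro s hs
    rw [mem_Icc] at hs
    obtain ⟨hs1, hs2⟩ := hs
    have hs1r : x ≤ s := ht₁.trans (by exact_mod_cast hs1)
    have hs2r : (s : ℝ) ≤ 6 * t := by exact_mod_cast hs2
    have hs0 : (0 : ℝ) < s := by linarith
    have hs1' : 1 ≤ s := by exact_mod_cast hs0
    have A2 : (bl n (2 * s) : ℝ) ≤ Real.exp (s * (2 * L + 1)) := by
      apply bl_exp' n (2 * s) hk1r
      rw [← hx]
      push_cast
      have h1 : (s : ℝ) * Real.log k ≤ s * L := mul_le_mul_of_nonneg_left hLk hs0.le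
      linarith
    have A4 : ((2 * m).choose s : ℝ) ≤ 2 ^ (k * s) * Real.exp (s * (L + 2)) := by
      apply ch_exp hs1'
      have h1 : ((2 * m : ℕ) : ℝ) = 2 * (Δ * (2 ^ k * n)) := by
        push_cast; rw [hm]
      have h2 : (n : ℝ) / s ≤ k := by
        rw [div_le_iff₀ hs0, hxk]
        have := mul_le_mul_of_nonneg_left hs1r hk0.le
        linarith
      have h3 : Real.exp 1 * (2 * (Δ * (2 ^ k * (n : ℝ)))) / s =
          2 ^ k * (2 * Real.exp 1 * (Δ * ((n : ℝ) / s))) := by ring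
      rw [h1, h3]
      apply mul_le_mul_of_nonneg_left _ (by positivity)
      have h4 : Δ * ((n : ℝ) / s) ≤ Δ * k := mul_le_mul_of_nonneg_left h2 hΔ0
      have h5 : Δ * k ≤ Real.exp L := by rw [hexp]; linarith
      have h6 : Real.exp (L + 2) = Real.exp 1 * Real.exp 1 * Real.exp L := by
        rw [← Real.exp_add, ← Real.exp_add]; congr 1; ring
      have h7 : 2 ≤ Real.exp 1 := by
        have := Real.exp_one_gt_d9
        linarith
      rw [h6]
      exact mul_le_mul (mul_le_mul_of_nonneg_right h7 (Real.exp_pos _).le) (h4.trans h5)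
        (by positivity) (by positivity)
    have hnd : 0 ≤ (n : ℝ) - u₁ + 4 * s := by
      have : (u₁ : ℝ) ≤ n := by exact_mod_cast hu₁n
      linarith
    have A5 := pw_exp (k := k) (t := s) hn0 hnd
    have A5' : Real.exp (-((s : ℝ) * (((u₁ : ℝ) - 4 * s) * (k / n)))) ≤
        Real.exp (-(s * (C₁ * L - (24 * G + 1)))) := by
      apply Real.exp_le_exp.2
      apply neg_le_neg
      apply mul_le_mul_of_nonneg_left _ hs0.le
      have h1 : (k : ℝ) / n = 1 / x := by rw [hxk]; field_simp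
      rw [h1, mul_one_div, le_div_iff₀ hx0]
      have h2 : (C₁ : ℝ) * lam = C₁ * L * x := by rw [hlamdef]; ring
      linarith
    have A5p : 0 ≤ (((n : ℝ) - u₁ + 4 * s) / (2 * n)) ^ (k * s) := by positivity
    generalize hP : (((n : ℝ) - u₁ + 4 * s) / (2 * n)) ^ (k * s) = P at A5 A5p ⊢
    have A45 : ((2 * m).choose s : ℝ) * P ≤ Real.exp (s * (L + 2)) *
        Real.exp (-(s * (C₁ * L - (24 * G + 1)))) := by
      calc ((2 * m).choose s : ℝ) * P ≤ 2 ^ (k * s) * Real.exp (s * (L + 2)) * P :=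
            mul_le_mul_of_nonneg_right A4 A5p
        _ = Real.exp (s * (L + 2)) * (P * 2 ^ (k * s)) := by ring
        _ ≤ _ := mul_le_mul_of_nonneg_left (A5.trans A5') (Real.exp_pos _).le
    have B := mul_le_mul A2 A45 (mul_nonneg (Nat.cast_nonneg _) A5p) (Real.exp_pos _).le
    rw [← mul_assoc] at B
    refine B.trans ?_
    simp only [← Real.exp_add]
    apply Real.exp_le_exp.2
    have c1 : 0 ≤ ((C₁ : ℝ) - 4) * L := by
      apply mul_nonneg _ hLpos.le
      have : (4 : ℝ) ≤ 2 ^ 46 := by norm_num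
      linarith
    have c2 : ((C₁ : ℝ) - 4) * L * x ≤ (C₁ - 4) * L * s := mul_le_mul_of_nonneg_left hs1r c1
    have c3 : 0 ≤ (s : ℝ) * (L - 24 * G - 4) := mul_nonneg hs0.le (by linarith)
    have c4 : ((C₁ : ℝ) - 4) * lam = (C₁ - 4) * L * x := by rw [hlamdef]; ring
    linarith
  have hsum : prE n k m t t₁ u₁ ≤ (6 * t + 1) * Real.exp (-(((C₁ : ℝ) - 4) * lam)) := by
    unfold prE
    refine (sum_le_card_nsmul _ _ _ hterm).trans ?_
    rw [nsmul_eq_mul, Nat.card_Icc]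
    apply mul_le_mul_of_nonneg_right _ (Real.exp_pos _).le
    have : 6 * t + 1 - t₁ ≤ 6 * t + 1 := Nat.sub_le _ _
    exact_mod_cast this
  have hexp2 : ∀ y : ℝ, 0 ≤ y → 2 * y ≤ Real.exp y := by
    intro y hy
    have h1 := Real.add_one_le_exp (y / 2)
    have h2 : Real.exp y = Real.exp (y / 2) * Real.exp (y / 2) := by
      rw [← Real.exp_add]; congr 1; ring
    have h3 : (y / 2 + 1) * (y / 2 + 1) ≤ Real.exp (y / 2) * Real.exp (y / 2) :=
      mul_le_mul h1 h1 (by linarith) (Real.exp_pos _).le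
    have h4 := sq_nonneg (y / 2 - 1)
    rw [h2]
    linarith
  have D1 : (n : ℝ) + 1 ≤ Real.exp (1 / 2 * lam) := by
    have h1 := mul_le_mul (hexp2 x hx0.le) hkL hk0.le (Real.exp_pos _).le
    rw [← Real.exp_add] at h1
    have h2 : (1 : ℝ) ≤ n := by exact_mod_cast hn1
    have h3 : 2 * x * k = 2 * (n : ℝ) := by rw [hxk]; ring
    have h4 : Real.exp (x + L) ≤ Real.exp (1 / 2 * lam) := by
      apply Real.exp_le_exp.2
      linarith
    linarith
  have D2 : 6 * (t : ℝ) + 1 ≤ Real.exp (1 / 2 * lam) := by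
    have h1 := hexp2 (1 / 2 * lam) (by linarith)
    have h2 : (6 * (G : ℝ) + 1) * x ≤ L * x := mul_le_mul_of_nonneg_right (by linarith) hx0.le
    rw [← hlamdef] at h2
    linarith
  have E1 : ((n : ℝ) + 1) * ((6 * t + 1) * Real.exp (-(((C₁ : ℝ) - 4) * lam))) ≤
      Real.exp (1 / 2 * lam) * (Real.exp (1 / 2 * lam) * Real.exp (-(((C₁ : ℝ) - 4) * lam))) := by
    apply mul_le_mul D1 _ (by positivity) (Real.exp_pos _).le
    exact mul_le_mul_of_nonneg_right D2 (Real.exp_pos _).le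
  refine (mul_le_mul_of_nonneg_left hsum (by positivity)).trans (E1.trans ?_)
  have e2 : (2 : ℝ) ^ (-(2 ^ 45 * sav n k m * n)) = Real.exp (-(2 ^ 45 * lam) * Real.log 2) := by
    rw [Real.rpow_def_of_pos (by norm_num), mul_assoc (2 ^ 45), hlam, mul_comm]
  rw [e2]
  simp only [← Real.exp_add]
  apply Real.exp_le_exp.2
  have hl2 : Real.log 2 < 0.6931471808 := Real.log_two_lt_d9
  have h9 : 2 ^ 45 * lam * Real.log 2 ≤ 2 ^ 45 * lam * 0.6931471808 :=
    mul_le_mul_of_nonneg_left hl2.le (by positivity)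
  have h10 : (2 : ℝ) ^ 46 * lam ≤ C₁ * lam := mul_le_mul_of_nonneg_right hCr hlam0.le
  linarith

end Pool.Agent.H32.SR
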