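import Pool.Agent.H32.SR.XNE

/-!
# Row XNP of ppz_modules (helper32): the parameters
-/

set_option autoImplicit false

namespace Pool.Agent.H32.SR

open Finset Pool.Agent.H97.RK Pool.Agent.H41.SS Pool.Agent.H47.SR
open Pool.Agent.H47.SQ (sav)

theorem pf_XNP (hXNB : T_XNB) (hXNE : T_XNE) : T_XNP := by
  intro ε hε hε1
  obtain ⟨e1, he1⟩ : ∃ e1 : ℝ, e1 = ε / 8 := ⟨_, rfl⟩
  have he0 : 0 < e1 := by rw [he1]; positivity
  have he8 : e1 ≤ 1 / 8 := by rw [he1]; linarith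
  obtain ⟨G, hG⟩ : ∃ G : ℕ, G = ⌈2 ^ 46 / e1⌉₊ := ⟨_, rfl⟩
  obtain ⟨Q, hQ⟩ : ∃ Q : ℕ, Q = ⌈8 / e1⌉₊ := ⟨_, rfl⟩
  have hG1 : 2 ^ 46 ≤ e1 * G := by
    have h1 : 2 ^ 46 / e1 ≤ G := by rw [hG]; exact Nat.le_ceil _
    rw [div_le_iff₀ he0] at h1
    linarith
  have hQ1 : 8 ≤ e1 * Q := by
    have h1 : 8 / e1 ≤ Q := by rw [hQ]; exact Nat.le_ceil _
    rw [div_le_iff₀ he0] at h1
    linarith
  have hQr : (0 : ℝ) < Q := by
    by_contra h
    push Not at h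
    have : (Q : ℝ) = 0 := le_antisymm h (Nat.cast_nonneg _)
    rw [this] at hQ1
    linarith
  have hQ1' : 1 ≤ Q := by exact_mod_cast hQr
  have hQ1r : (1 : ℝ) ≤ Q := by exact_mod_cast hQ1'
  have hG0 : (0 : ℝ) ≤ G := Nat.cast_nonneg _
  have hG46 : (2 : ℝ) ^ 46 ≤ G := hG1.trans (mul_le_of_le_one_left hG0 (by linarith))
  have hG7 : (7 : ℝ) ≤ G := le_trans (by norm_num) hG46
  obtain ⟨c₁, K₁, hc₁, hB⟩ := hXNB e1 G (2 ^ 46 + 1) he0 (by linarith) hG1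
  obtain ⟨c₂, K₂, hc₂, hE⟩ := hXNE G (2 ^ 46) le_rfl
  obtain ⟨c, hc⟩ : ∃ c : ℝ, c = min (min c₁ c₂) (min (1 / 2 ^ 50) (e1 / (32 * Q))) := ⟨_, rfl⟩
  have hc0 : 0 < c := by
    rw [hc]
    refine lt_min (lt_min hc₁ hc₂) (lt_min (by positivity) (by positivity))
  have hcc1 : c ≤ c₁ := by rw [hc]; exact (min_le_left _ _).trans (min_le_left _ _)
  have hcc2 : c ≤ c₂ := by rw [hc]; exact (min_le_left _ _).trans (min_le_right _ _)
  have hcc3 : c ≤ 1 / 2 ^ 50 := by rw [hc]; exact (min_le_right _ _).trans (min_le_left _ _)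
  have hcc4 : c ≤ e1 / (32 * Q) := by rw [hc]; exact (min_le_right _ _).trans (min_le_right _ _)
  obtain ⟨L0, hL0⟩ : ∃ L0 : ℝ, L0 = 128 * G * Q / e1 + 30 := ⟨_, rfl⟩
  obtain ⟨K, hK⟩ : ∃ K : ℕ, K = K₁ + K₂ + ⌈Real.exp L0⌉₊ + ⌈20 * Q / e1⌉₊ + 2 ^ 110 := ⟨_, rfl⟩
  refine ⟨c, K, Q, hc0, hQ1', ?_⟩
  intro k n m hk hn hm0
  have hkK1 : K₁ ≤ k := by omega
  have hkK2 : K₂ ≤ k := by omega
  have hK110 : 2 ^ 110 ≤ k := by omega
  have hk1 : 1 ≤ k := le_trans (by norm_num) hK110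
  have hKpos : 1 ≤ K := by rw [hK]; exact le_trans (by norm_num) (Nat.le_add_left (2 ^ 110) _)
  have hn1 : 1 ≤ n := le_trans (Nat.mul_le_mul hKpos hk1) hn
  have hKe : Real.exp L0 ≤ K := by
    rw [hK]; push_cast
    have := Nat.le_ceil (Real.exp L0)
    have h1 : (0 : ℝ) ≤ K₁ := Nat.cast_nonneg _
    have h2 : (0 : ℝ) ≤ K₂ := Nat.cast_nonneg _
    have h3 : (0 : ℝ) ≤ (⌈20 * (Q : ℝ) / e1⌉₊ : ℝ) := Nat.cast_nonneg _
    linarith
  have hKQ : 20 * (Q : ℝ) / e1 ≤ K := by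
    rw [hK]; push_cast
    have := Nat.le_ceil (20 * (Q : ℝ) / e1)
    have h1 : (0 : ℝ) ≤ K₁ := Nat.cast_nonneg _
    have h2 : (0 : ℝ) ≤ K₂ := Nat.cast_nonneg _
    have h3 : (0 : ℝ) ≤ (⌈Real.exp L0⌉₊ : ℝ) := Nat.cast_nonneg _
    linarith
  have hKn1 : K₁ * k ≤ n := le_trans (Nat.mul_le_mul_right k (by omega)) hn
  have hKn2 : K₂ * k ≤ n := le_trans (Nat.mul_le_mul_right k (by omega)) hn
  have hkr : (K : ℝ) ≤ k := by exact_mod_cast hk
  have hk0 : (0 : ℝ) < k := by exact_mod_cast (by omega : 0 < k)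
  have hn0 : (0 : ℝ) < n := by exact_mod_cast (by omega : 0 < n)
  have hnr : (K : ℝ) * k ≤ n := by exact_mod_cast hn
  have hk110 : (2 : ℝ) ^ 110 ≤ k := by exact_mod_cast hK110
  obtain ⟨L, Δ, hlam, hexp, hm, hΔ0, hLk, -, -⟩ := ctx (m := m) hk1 hn1
  obtain ⟨x, hx⟩ : ∃ x : ℝ, x = (n : ℝ) / k := ⟨_, rfl⟩
  have hxk : (n : ℝ) = x * k := by rw [hx]; field_simp
  have hxK : (K : ℝ) ≤ x := by
    rw [hx, le_div_iff₀ hk0]; exact hnr
  have hx1 : (1 : ℝ) ≤ x := le_trans (by exact_mod_cast hKpos) hxK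
  have hx0 : 0 < x := by linarith
  have hmono : ∀ c' : ℝ, c ≤ c' → (m : ℝ) ≤ (2 : ℝ) ^ ((1 + c') * k) * n := by
    intro c' hc'
    refine hm0.trans (mul_le_mul_of_nonneg_right ?_ hn0.le)
    apply Real.rpow_le_rpow_of_exponent_le (by norm_num)
    exact mul_le_mul_of_nonneg_right (by linarith) hk0.le
  -- bounds of L
  have hL0L : L0 ≤ L := by
    refine le_trans ?_ hLk
    rw [Real.le_log_iff_exp_le hk0]
    exact hKe.trans hkr
  rw [hL0] at hL0L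
  have hpq : 0 ≤ 128 * (G : ℝ) * Q / e1 := by positivity
  have hL30 : 30 ≤ L := by linarith
  have hLG : 128 * (G : ℝ) * Q ≤ e1 * L := by
    have h1 : 128 * (G : ℝ) * Q / e1 ≤ L := by linarith
    rw [div_le_iff₀ he0] at h1
    linarith
  have hLup : L ≤ k / 2 ^ 49 := by
    have h1 : Δ ≤ (2 : ℝ) ^ (c * k) := by
      rw [hm] at hm0
      have h2 : (2 : ℝ) ^ ((1 + c) * k) * n = (2 : ℝ) ^ (c * k) * (2 ^ k * n) := by
        rw [add_mul, one_mul, Real.rpow_add (by norm_num), Real.rpow_natCast]; ring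
      rw [h2] at hm0
      exact le_of_mul_le_mul_right hm0 (by positivity)
    have h3 : (1 : ℝ) ≤ (2 : ℝ) ^ (c * k) := Real.one_le_rpow (by norm_num) (by positivity)
    have h4 : Real.exp L ≤ 2 * k * (2 : ℝ) ^ (c * k) := by
      rw [hexp]
      have h5 : (k : ℝ) * (1 + Δ) ≤ k * ((2 : ℝ) ^ (c * k) + (2 : ℝ) ^ (c * k)) :=
        mul_le_mul_of_nonneg_left (by linarith) hk0.le
      linarith
    have h5 : L ≤ Real.log (2 * k) + c * k * Real.log 2 := by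
      have h6 := Real.log_le_log (Real.exp_pos L) h4
      rw [Real.log_exp, Real.log_mul (by positivity) (by positivity),
        Real.log_rpow (by norm_num)] at h6
      exact h6
    have h6 : Real.log (2 * k) ≤ k / 2 ^ 50 := by
      refine (log_le_sqrt' (by positivity)).trans ?_
      have h7 : Real.sqrt (2 * k) ≤ k / 2 ^ 51 := by
        rw [Real.sqrt_le_left (by positivity)]
        have h8 : ((k : ℝ) / 2 ^ 51) ^ 2 = k * (k / 2 ^ 102) := by ring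
        rw [h8, mul_comm]
        apply mul_le_mul_of_nonneg_left _ hk0.le
        rw [le_div_iff₀ (by positivity)]
        exact le_trans (by norm_num) hk110
      have h9 : 2 * ((k : ℝ) / 2 ^ 51) = k / 2 ^ 50 := by ring
      linarith
    have h7 : c * k * Real.log 2 ≤ k / 2 ^ 50 := by
      have h8 : Real.log 2 ≤ 1 := by
        have := Real.log_two_lt_d9
        linarith
      have h9 : c * k ≤ 1 / 2 ^ 50 * k := mul_le_mul_of_nonneg_right hcc3 hk0.le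
      have h10 : c * k * Real.log 2 ≤ c * k * 1 := mul_le_mul_of_nonneg_left h8 (by positivity)
      linarith
    have h8 : (k : ℝ) / 2 ^ 49 = k / 2 ^ 50 + k / 2 ^ 50 := by ring
    linarith
  have hLpos : 0 < L := by linarith
  obtain ⟨lam, hlamdef⟩ : ∃ lam : ℝ, lam = L * x := ⟨_, rfl⟩
  rw [← hx, ← hlamdef] at hlam
  have hxlam : 30 * x ≤ lam := by
    rw [hlamdef]; exact mul_le_mul_of_nonneg_right hL30 hx0.le
  have hlam0 : 0 < lam := by linarith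
  have hGx : 128 * (G : ℝ) * Q * x ≤ e1 * lam := by
    have := mul_le_mul_of_nonneg_right hLG hx0.le
    rw [hlamdef]; linarith
  have hGx' : 128 * ((G : ℝ) * x) ≤ e1 * lam := by
    have h1 : 128 * ((G : ℝ) * x) * 1 ≤ 128 * ((G : ℝ) * x) * Q :=
      mul_le_mul_of_nonneg_left hQ1r (by positivity)
    linarith
  have hQx : 600 * (Q : ℝ) ≤ e1 * lam := by
    have h1 := hKQ.trans hxK
    rw [div_le_iff₀ he0] at h1
    have h2 : e1 * (30 * x) ≤ e1 * lam := mul_le_mul_of_nonneg_left hxlam he0.le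
    linarith
  have h600 : 600 ≤ e1 * lam := by linarith
  have hlamn : 2 ^ 49 * lam ≤ n := by
    rw [hlamdef, hxk]
    have h1 : L * x ≤ k / 2 ^ 49 * x := mul_le_mul_of_nonneg_right hLup hx0.le
    have h2 : 2 ^ 49 * ((k : ℝ) / 2 ^ 49 * x) = x * k := by ring
    linarith
  have he1lam : e1 * lam ≤ 1 / 8 * lam := mul_le_mul_of_nonneg_right he8 hlam0.le
  clear hL0L hL0 hK hKe hKQ
  -- the parameters
  have hGx0 : 0 ≤ (G : ℝ) * x := by positivity
  obtain ⟨t, htd⟩ : ∃ t : ℕ, t = ⌈(G : ℝ) * x⌉₊ := ⟨_, rfl⟩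
  obtain ⟨t₁, ht₁d⟩ : ∃ t₁ : ℕ, t₁ = ⌈x⌉₊ := ⟨_, rfl⟩
  obtain ⟨d, hdd⟩ : ∃ d : ℕ, d = ⌈(1 + e1) * lam⌉₊ := ⟨_, rfl⟩
  obtain ⟨b₀, hbd⟩ : ∃ b₀ : ℕ, b₀ = ⌈e1 * lam⌉₊ := ⟨_, rfl⟩
  obtain ⟨u₁, hu₁d⟩ : ∃ u₁ : ℕ, u₁ = ⌈2 ^ 46 * lam⌉₊ := ⟨_, rfl⟩
  have t1 : (G : ℝ) * x ≤ t := by rw [htd]; exact Nat.le_ceil _
  have t2 : (t : ℝ) ≤ G * x + 1 := by
    rw [htd]; exact (Nat.ceil_lt_add_one hGx0).le
  have s1 : x ≤ t₁ := by rw [ht₁d]; exact Nat.le_ceil _
  have s2 : (t₁ : ℝ) ≤ x + 1 := by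
    rw [ht₁d]; exact (Nat.ceil_lt_add_one hx0.le).le
  have d1 : (1 + e1) * lam ≤ d := by rw [hdd]; exact Nat.le_ceil _
  have d2 : (d : ℝ) ≤ (1 + e1) * lam + 1 := by
    rw [hdd]; exact (Nat.ceil_lt_add_one (by positivity)).le
  have b1 : e1 * lam ≤ b₀ := by rw [hbd]; exact Nat.le_ceil _
  have b2 : (b₀ : ℝ) ≤ e1 * lam + 1 := by
    rw [hbd]; exact (Nat.ceil_lt_add_one (by positivity)).le
  have v1 : 2 ^ 46 * lam ≤ u₁ := by rw [hu₁d]; exact Nat.le_ceil _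
  have v2 : (u₁ : ℝ) ≤ 2 ^ 46 * lam + 1 := by
    rw [hu₁d]; exact (Nat.ceil_lt_add_one (by positivity)).le
  clear htd ht₁d hdd hbd hu₁d
  have hlam600 : 600 ≤ lam := by linarith
  obtain ⟨u, hud⟩ : ∃ u : ℕ, u = b₀ + 12 * t + d + b₀ := ⟨_, rfl⟩
  have hur : (u : ℝ) = b₀ + 12 * t + d + b₀ := by rw [hud]; push_cast; ring
  have hu3 : (u : ℝ) ≤ 3 * lam := by rw [hur]; linarith
  have hGx1 : 1 ≤ (G : ℝ) * x := by
    have := mul_le_mul hG7 hx1 (by norm_num) hG0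
    linarith
  have ht1 : 1 ≤ t := by
    have : (1 : ℝ) ≤ t := hGx1.trans t1
    exact_mod_cast this
  have huu₁ : u ≤ u₁ := by
    have : (u : ℝ) ≤ u₁ := by
      have h1 : 3 * lam ≤ 2 ^ 46 * lam := mul_le_mul_of_nonneg_right (by norm_num) hlam0.le
      linarith
    exact_mod_cast this
  have hu₁n : u₁ ≤ n := by
    have : (u₁ : ℝ) ≤ n := by
      have h1 : 2 ^ 49 * lam = 8 * (2 ^ 46 * lam) := by ring
      have h2 : lam ≤ 2 ^ 46 * lam := le_mul_of_one_le_left hlam0.le (by norm_num)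
      linarith
    exact_mod_cast this
  have hdu : d ≤ u := by omega
  refine ⟨t, t₁, d, u, u₁, b₀, ?_, ?_, ?_, huu₁, hu₁n, by omega, by omega, ?_, ?_, ?_, ?_⟩
  · have : (1 : ℝ) ≤ t₁ := hx1.trans s1
    exact_mod_cast this
  · have h1 : (t₁ : ℝ) ≤ t := by
      have h2 : 7 * x ≤ G * x := mul_le_mul_of_nonneg_right hG7 hx0.le
      linarith
    exact_mod_cast h1
  · have h1 : (n : ℝ) ≤ 2 * t * k := by
      rw [hxk]
      apply mul_le_mul_of_nonneg_right _ hk0.le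
      have h2 : 7 * x ≤ G * x := mul_le_mul_of_nonneg_right hG7 hx0.le
      linarith
    exact_mod_cast h1
  · have h1 : 2 * (u : ℝ) ≤ Q * b₀ := by
      have h2 : (Q : ℝ) * (e1 * lam) ≤ Q * b₀ := mul_le_mul_of_nonneg_left b1 hQr.le
      have h3 : 8 * lam ≤ e1 * Q * lam := mul_le_mul_of_nonneg_right hQ1 hlam0.le
      linarith
    exact_mod_cast h1
  · have h1 : (1 + ε) * sav n k m * n = (1 + 8 * e1) * lam := by
      rw [mul_assoc, hlam, he1]; ring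
    rw [h1, hur]
    linarith
  · have hB' := hB k n m t t₁ d u u₁ hkK1 hKn1 (hmono c₁ hcc1) (by rw [← hx]; exact t2)
      (by rw [← hx]; exact t1) (by rw [← hx]; exact s2)
      (by rw [mul_assoc, hlam]; exact d1) (by omega) (by rw [hlam]; exact hu3)
      (by rw [hlam]; push_cast; linarith) hu₁n
    have hE' := hE k n m t t₁ u₁ hkK2 hKn2 (hmono c₂ hcc2) ht1 (by rw [← hx]; exact t2)
      (by rw [← hx]; exact s1) (by rw [hlam]; push_cast; linarith) hu₁n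
    unfold pT
    refine (add_le_add hB' hE').trans ?_
    have h1 : (2 : ℝ) ^ (-(2 ^ 45 * sav n k m * n)) + (2 : ℝ) ^ (-(2 ^ 45 * sav n k m * n)) =
        (2 : ℝ) ^ (1 + -(2 ^ 45 * sav n k m * n)) := by
      rw [Real.rpow_add (by norm_num), Real.rpow_one]; ring
    rw [h1]
    apply Real.rpow_le_rpow_of_exponent_le (by norm_num)
    rw [mul_assoc, mul_assoc, hlam]
    linarith
  · have hN : u - (b₀ + d + 6 * t) = 6 * t + b₀ := by omega
    rw [hN]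
    obtain ⟨w, hw⟩ : ∃ w : ℝ, w = e1 * lam / Q := ⟨_, rfl⟩
    have hw600 : 600 ≤ w := by
      rw [hw, le_div_iff₀ hQr]; exact hQx
    have p1 : (2 : ℝ) ^ (c * sav n k m * n) ≤ Real.exp (1 / 32 * w) := by
      rw [mul_assoc, hlam, Real.rpow_def_of_pos (by norm_num)]
      apply Real.exp_le_exp.2
      have h8 : Real.log 2 ≤ 1 := by
        have := Real.log_two_lt_d9
        linarith
      have h9 : c * lam ≤ e1 / (32 * Q) * lam := mul_le_mul_of_nonneg_right hcc4 hlam0.le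
      have h10 : e1 / (32 * Q) * lam = 1 / 32 * w := by rw [hw]; field_simp
      have h11 : Real.log 2 * (c * lam) ≤ 1 * (c * lam) :=
        mul_le_mul_of_nonneg_right h8 (by positivity)
      linarith
    have p2 : (2 : ℝ) ^ (4 * t) ≤ Real.exp (1 / 32 * w + 28 / 10) := by
      apply two_pow_exp
      push_cast
      have h1 : 128 * (G * x) ≤ w := by
        rw [hw, le_div_iff₀ hQr]; linarith
      linarith
    have hq1 : 1 / (4 * (Q : ℝ)) ≤ 1 / 4 := by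
      rw [div_le_div_iff₀ (by positivity) (by norm_num)]
      linarith
    have p3 : (1 - 1 / (4 * (Q : ℝ))) ^ (6 * t + b₀) ≤ Real.exp (-(1 / 4 * w)) := by
      have h1 : 1 - 1 / (4 * (Q : ℝ)) ≤ Real.exp (-(1 / (4 * Q))) := by
        have := Real.add_one_le_exp (-(1 / (4 * (Q : ℝ))))
        linarith
      refine (pow_le_pow_left₀ (by linarith) h1 _).trans ?_
      rw [← Real.exp_nat_mul]
      apply Real.exp_le_exp.2
      push_cast
      have h2 : e1 * lam * (1 / (4 * Q)) ≤ (6 * t + b₀) * (1 / (4 * (Q : ℝ))) := by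
        apply mul_le_mul_of_nonneg_right _ (by positivity)
        have : (0 : ℝ) ≤ t := Nat.cast_nonneg _
        linarith
      have h3 : e1 * lam * (1 / (4 * Q)) = 1 / 4 * w := by rw [hw]; field_simp
      linarith
    have p4 : (2 : ℝ) ≤ Real.exp 1 := by
      have := Real.exp_one_gt_d9
      linarith
    have hbase : 0 ≤ 1 - 1 / (4 * (Q : ℝ)) := by linarith
    have q1 := mul_le_mul p2 p3 (pow_nonneg hbase _) (Real.exp_pos _).le
    have q2 := mul_le_mul p1 q1 (mul_nonneg (by positivity) (pow_nonneg hbase _))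
      (Real.exp_pos _).le
    have q3 := mul_le_mul p4 q2 (mul_nonneg (by positivity) (mul_nonneg (by positivity)
      (pow_nonneg hbase _))) (Real.exp_pos _).le
    refine lt_of_le_of_lt q3 ?_
    simp only [← Real.exp_add]
    rw [Real.exp_lt_one_iff]
    linarith

end Pool.Agent.H32.SR
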